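import Pool.Agent.N208.LC.Stm

set_option autoImplicit false

/-!
# Project LC: from words to multilinear forms
-/

open Module

noncomputable section

namespace Pool.Agent.N75.LCBR

open Pool.Agent.N208.LC

variable {P N : ℕ} {T ι V : Type} [Fintype T] [DecidableEq T] [Fintype ι] [DecidableEq ι]
  [AddCommGroup V] [Module ℂ V]

theorem opX_basis (e : Basis (Ix N T) ℂ V) (pl : T → Fin P) (b : Fin P)
    (x : Matrix (Fin N) (Fin N) ℂ) (i : Ix N T) : opX e pl b x (e i) =
      if pl i.2.2 = b then
        (if i.1 then ∑ p, x p i.2.1 • e (true, p, i.2.2) else -∑ q, x i.2.1 q • e (false, q, i.2.2))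
      else 0 := by
  unfold opX
  rw [Basis.constr_basis]

theorem opX_E (e : Basis (Ix N T) ℂ V) (pl : T → Fin P) (b : Fin P) (p q : Fin N) (i : Ix N T) :
    opX e pl b (Matrix.of fun i j => if i = q ∧ j = p then (1 : ℂ) else 0) (e i) =
      (if i.1 = true ∧ i.2.1 = p ∧ pl i.2.2 = b then e (true, q, i.2.2) else 0) -
        (if i.1 = false ∧ i.2.1 = q ∧ pl i.2.2 = b then e (false, p, i.2.2) else 0) := by
  obtain ⟨s, r, t⟩ := i
  rw [opX_basis]
  simp only [Matrix.of_apply]
  by_cases hb : pl t = b
  · rw [if_pos hb]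
    cases s
    · rw [if_neg (by simp), if_neg (by simp), zero_sub]
      by_cases hr : r = q
      · rw [if_pos ⟨rfl, hr, hb⟩]
        congr 1
        rw [Finset.sum_eq_single p]
        · rw [if_pos ⟨hr, rfl⟩, one_smul]
        · intro j _ hj
          rw [if_neg (fun h => hj h.2), zero_smul]
        · exact fun h => absurd (Finset.mem_univ _) h
      · rw [if_neg (fun h => hr h.2.1)]
        congr 1
        apply Finset.sum_eq_zero
        intro j _
        rw [if_neg (fun h => hr h.1), zero_smul]
    · rw [if_pos (by rfl)]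
      have h2 : (if (true = false) ∧ r = q ∧ pl t = b then e (false, p, t) else 0) = 0 :=
        if_neg (by simp)
      rw [h2, sub_zero]
      by_cases hr : r = p
      · rw [if_pos ⟨rfl, hr, hb⟩, Finset.sum_eq_single q]
        · rw [if_pos ⟨rfl, hr⟩, one_smul]
        · intro j _ hj
          rw [if_neg (fun h => hj h.1), zero_smul]
        · exact fun h => absurd (Finset.mem_univ _) h
      · rw [if_neg (fun h => hr h.2.1)]
        apply Finset.sum_eq_zero
        intro j _
        rw [if_neg (fun h => hr h.2), zero_smul]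
  · rw [if_neg hb, if_neg (fun h => hb h.2.2), if_neg (fun h => hb h.2.2), sub_zero]

/-- the coefficient of the weight -/
def co (pl : T → Fin P) (b : Fin P) (p : Fin N) (i : Ix N T) : ℂ :=
  (if i.1 = true ∧ i.2.1 = p ∧ pl i.2.2 = b then 1 else 0) -
    (if i.1 = false ∧ i.2.1 = p ∧ pl i.2.2 = b then 1 else 0)

theorem opX_D (e : Basis (Ix N T) ℂ V) (pl : T → Fin P) (b : Fin P) (p q : Fin N) (i : Ix N T) :
    opX e pl b (Matrix.diagonal fun r => (if r = p then (1 : ℂ) else 0) - if r = q then 1 else 0)
      (e i) = (co pl b p i - co pl b q i) • e i := by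
  obtain ⟨s, r, t⟩ := i
  rw [opX_basis]
  unfold co
  simp only
  by_cases hb : pl t = b
  · rw [if_pos hb]
    cases s
    · rw [if_neg (by simp)]
      rw [Finset.sum_eq_single r]
      · rw [Matrix.diagonal_apply_eq, ← neg_smul]
        congr 1
        simp [hb]
        ring
      · intro j _ hj
        rw [Matrix.diagonal_apply_ne _ (Ne.symm hj), zero_smul]
      · exact fun h => absurd (Finset.mem_univ _) h
    · rw [if_pos (by rfl)]
      rw [Finset.sum_eq_single r]
      · rw [Matrix.diagonal_apply_eq]
        congr 1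
        simp [hb]
      · intro j _ hj
        rw [Matrix.diagonal_apply_ne _ hj, zero_smul]
      · exact fun h => absurd (Finset.mem_univ _) h
  · simp [hb]

theorem upd (e : Basis (Ix N T) ℂ V) (I : ι → Ix N T) (k : ι) (z : Ix N T) :
    Function.update (fun k => e (I k)) k (e z) = fun j => e (Function.update I k z j) := by
  funext j
  by_cases h : j = k
  · subst h
    rw [Function.update_self, Function.update_self]
  · rw [Function.update_of_ne h, Function.update_of_ne h]

theorem wt_eq (pl : T → Fin P) (I : ι → Ix N T) (b : Fin P) (p : Fin N) :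
    ((wt pl I b p : ℤ) : ℂ) = ∑ k, co pl b p (I k) := by
  unfold wt co
  rw [Finset.sum_sub_distrib, Finset.sum_boole, Finset.sum_boole]
  push_cast
  rfl

theorem inv (hB : S_BAL) (pl : T → Fin P) (e : Basis (Ix N T) ℂ V) {k : ℕ}
    (hc : Fintype.card ι = 2 * k) (hN : 2 * k < N ∨ (Odd N ∧ k < N))
    (φ : MultilinearMap ℂ (fun _ : ι => V) ℂ)
    (h : ∀ b x, x.trace = 0 → Kil (opX e pl b x) φ) : Inv pl (fun I => φ (fun k => e (I k))) := by
  refine ⟨fun I hI => ?_, fun b p q hpq I => ?_⟩
  · refine hB P N k T ι pl hc hN I fun b p q => ?_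
    have h1 := h b (Matrix.diagonal fun r => (if r = p then (1 : ℂ) else 0) - if r = q then 1 else 0)
      (by
        rw [Matrix.trace_diagonal, Finset.sum_sub_distrib]
        simp) (fun k => e (I k))
    have h2 : ∀ j : ι, φ (Function.update (fun k => e (I k)) j (opX e pl b
        (Matrix.diagonal fun r => (if r = p then (1 : ℂ) else 0) - if r = q then 1 else 0)
          (e (I j)))) = (co pl b p (I j) - co pl b q (I j)) * φ (fun k => e (I k)) := by
      intro j
      rw [opX_D, MultilinearMap.map_update_smul, smul_eq_mul, upd, Function.update_eq_self]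
    rw [Finset.sum_congr rfl fun j _ => h2 j, ← Finset.sum_mul, Finset.sum_sub_distrib, ← wt_eq,
      ← wt_eq] at h1
    rcases mul_eq_zero.1 h1 with h3 | h3
    · rw [← Int.cast_sub, Int.cast_eq_zero] at h3
      linarith
    · exact absurd h3 hI
  · have h1 := h b (Matrix.of fun i j => if i = q ∧ j = p then (1 : ℂ) else 0) (by
      rw [Matrix.trace]
      apply Finset.sum_eq_zero
      intro j _
      rw [Matrix.diag_apply, Matrix.of_apply]
      exact if_neg fun h => hpq (h.2.symm.trans h.1)) (fun k => e (I k))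
    have h2 : ∀ j : ι, φ (Function.update (fun k => e (I k)) j (opX e pl b
        (Matrix.of fun i j => if i = q ∧ j = p then (1 : ℂ) else 0) (e (I j)))) =
        (if (I j).1 = true ∧ (I j).2.1 = p ∧ pl (I j).2.2 = b then
          φ (fun k => e (Function.update I j (true, q, (I j).2.2) k)) else 0) -
        (if (I j).1 = false ∧ (I j).2.1 = q ∧ pl (I j).2.2 = b then
          φ (fun k => e (Function.update I j (false, p, (I j).2.2) k)) else 0) := by
      intro j
      rw [opX_E, MultilinearMap.map_update_sub]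
      congr 1
      · split_ifs
        · rw [upd]
        · exact MultilinearMap.map_update_zero _ _ _
      · split_ifs
        · rw [upd]
        · exact MultilinearMap.map_update_zero _ _ _
    rw [Finset.sum_congr rfl fun j _ => h2 j, Finset.sum_sub_distrib, sub_eq_zero] at h1
    rw [Finset.sum_filter, Finset.sum_filter]
    exact h1

/-- the product of the values of bilinear forms, as a multilinear form -/
def Psi {k : ℕ} (ε : Fin k × Fin 2 ≃ ι) (c : Fin k → V →ₗ[ℂ] V →ₗ[ℂ] ℂ) :
    MultilinearMap ℂ (fun _ : ι => V) ℂ := by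
  have key : ∀ [dec : DecidableEq ι] (v : ι → V) (j : ι), ∃ l : V →ₗ[ℂ] ℂ, ∀ x : V,
      ∏ i, c i (Function.update v j x (ε (i, 0))) (Function.update v j x (ε (i, 1))) = l x := by
    intro dec v j
    obtain ⟨⟨i₀, s⟩, rfl⟩ := ε.surjective j
    have hne : ∀ i ∈ Finset.univ.erase i₀, ∀ s' : Fin 2, ∀ x : V,
        Function.update v (ε (i₀, s)) x (ε (i, s')) = v (ε (i, s')) := by
      intro i hi s' x
      apply Function.update_of_ne
      intro h
      have := (Prod.ext_iff.1 (ε.injective h)).1
      exact (Finset.mem_erase.1 hi).1 this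
    have hR : ∀ x : V, ∏ i ∈ Finset.univ.erase i₀,
        c i (Function.update v (ε (i₀, s)) x (ε (i, 0)))
          (Function.update v (ε (i₀, s)) x (ε (i, 1))) =
        ∏ i ∈ Finset.univ.erase i₀, c i (v (ε (i, 0))) (v (ε (i, 1))) := by
      intro x
      refine Finset.prod_congr rfl fun i hi => ?_
      rw [hne i hi, hne i hi]
    set R : ℂ := ∏ i ∈ Finset.univ.erase i₀, c i (v (ε (i, 0))) (v (ε (i, 1))) with hRd
    fin_cases s
    · refine ⟨R • ((c i₀).flip (v (ε (i₀, 1)))), fun x => ?_⟩
      rw [← Finset.prod_erase_mul _ _ (Finset.mem_univ i₀)]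
      have h1 := hR x
      simp only [Fin.zero_eta] at h1 ⊢
      rw [h1, Function.update_self, Function.update_of_ne (fun h => by
        have := (Prod.ext_iff.1 (ε.injective h)).2
        exact absurd this (by simp))]
      rfl
    · refine ⟨R • (c i₀ (v (ε (i₀, 0)))), fun x => ?_⟩
      rw [← Finset.prod_erase_mul _ _ (Finset.mem_univ i₀)]
      have h1 := hR x
      simp only [Fin.mk_one] at h1 ⊢
      rw [h1, Function.update_self, Function.update_of_ne (fun h => by
        have := (Prod.ext_iff.1 (ε.injective h)).2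
        exact absurd this (by simp))]
      rfl
  exact
    { toFun := fun v => ∏ i, c i (v (ε (i, 0))) (v (ε (i, 1)))
      map_update_add' := by
        intro dec v j x y
        obtain ⟨l, hl⟩ := key (dec := dec) v j
        rw [hl, hl, hl, map_add]
      map_update_smul' := by
        intro dec v j a x
        obtain ⟨l, hl⟩ := key (dec := dec) v j
        rw [hl, hl, map_smul] }

theorem Psi_apply {k : ℕ} (ε : Fin k × Fin 2 ≃ ι) (c : Fin k → V →ₗ[ℂ] V →ₗ[ℂ] ℂ) (v : ι → V) :
    Psi ε c v = ∏ i, c i (v (ε (i, 0))) (v (ε (i, 1))) := rfl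

/-- the multilinear form with given values on the basis -/
def Mp (e : Basis (Ix N T) ℂ V) :
    ((ι → Ix N T) → ℂ) →ₗ[ℂ] MultilinearMap ℂ (fun _ : ι => V) ℂ :=
  Fintype.linearCombination ℂ fun I : ι → Ix N T =>
    (MultilinearMap.mkPiAlgebra ℂ ι ℂ).compLinearMap fun k => e.coord (I k)

theorem Mp_apply (e : Basis (Ix N T) ℂ V) (G : (ι → Ix N T) → ℂ) (J : ι → Ix N T) :
    Mp e G (fun k => e (J k)) = G J := by
  unfold Mp
  rw [Fintype.linearCombination_apply, MultilinearMap.sum_apply, Finset.sum_eq_single J]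
  · rw [MultilinearMap.smul_apply, MultilinearMap.compLinearMap_apply,
      MultilinearMap.mkPiAlgebra_apply]
    simp
  · intro I _ hI
    rw [MultilinearMap.smul_apply, MultilinearMap.compLinearMap_apply,
      MultilinearMap.mkPiAlgebra_apply]
    obtain ⟨k, hk⟩ := Function.ne_iff.1 hI
    rw [Finset.prod_eq_zero (Finset.mem_univ k), smul_zero]
    rw [Basis.coord_apply, Basis.repr_self, Finsupp.single_apply, if_neg (Ne.symm hk)]
  · exact fun h => absurd (Finset.mem_univ _) h

theorem main : Pool.Agent.N208.LC.S_BAL → Pool.Agent.N208.LC.S_CORE → Pool.Agent.N208.LC.S_BR := by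
  intro hB hC P N k T ι V _ _ _ _ _ _ pl e hc hN φ h
  have hI := inv hB pl e hc hN φ h
  have hkN : k < N := by
    rcases hN with h1 | h1
    · omega
    · exact h1.2
  have h1 := hC P N k T ι pl hc hkN _ hI
  have h2 : Mp e (fun I => φ (fun k => e (I k))) = φ := by
    refine Basis.ext_multilinear (fun _ => e) fun J => ?_
    exact Mp_apply e _ J
  rw [← h2]
  have h3 := Submodule.mem_map_of_mem (f := Mp (ι := ι) e) h1
  rw [Submodule.map_span] at h3
  refine Submodule.span_mono ?_ h3
  rintro _ ⟨G, ⟨ε, d, hd, hG⟩, rfl⟩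
  refine ⟨ε, fun i => e.constr ℂ fun x => e.constr ℂ fun y => d i x y, ?_, ?_⟩
  · intro i
    obtain ⟨s, t, t', htt, hdi⟩ := hd i
    refine ⟨s, t, t', htt, fun x y => ?_⟩
    rw [← hdi x y, Basis.constr_basis, Basis.constr_basis]
  · intro v
    rw [← Psi_apply]
    congr 1
    refine Basis.ext_multilinear (fun _ => e) fun J => ?_
    rw [Mp_apply, Psi_apply, hG]
    refine Finset.prod_congr rfl fun i _ => ?_
    rw [Basis.constr_basis, Basis.constr_basis]

end Pool.Agent.N75.LCBR
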