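import Pool.Agent.N367.LE.Stm

/-! Two prime factors: `S_GU → S_GA → S_GR → S_G1`. -/

namespace Pool.Agent.N75.LEG1

open H419R2 Pool.Agent.N367.LE

/-- primes dividing `n ^ 2 + 4`, `n` odd, are odd and `1` mod `4` -/
theorem mod4 {n p : ℕ} (hn : n % 2 = 1) (hp : p.Prime) (h : p ∣ n ^ 2 + 4) :
    p ≠ 2 ∧ p % 4 = 1 := by
  have hodd : (n ^ 2 + 4) % 2 = 1 := by
    rw [Nat.add_mod, Nat.pow_mod, hn]
  have h2 : p ≠ 2 := by
    rintro rfl
    have := Nat.mod_eq_zero_of_dvd h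
    rw [this] at hodd
    exact absurd hodd (by norm_num)
  refine ⟨h2, ?_⟩
  have hp2 : p % 2 = 1 := (hp.eq_two_or_odd).resolve_left h2
  haveI := Fact.mk hp
  have hy : (2 : ZMod p) ≠ 0 := by
    intro h0
    have h1 : ((2 : ℕ) : ZMod p) = 0 := by exact_mod_cast h0
    rw [ZMod.natCast_eq_zero_iff] at h1
    exact h2 ((Nat.prime_dvd_prime_iff_eq hp Nat.prime_two).mp h1)
  have h0 : ((n ^ 2 + 4 : ℕ) : ZMod p) = 0 := (ZMod.natCast_eq_zero_iff _ _).mpr h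
  have hxy : (n : ZMod p) ^ 2 = -(2 : ZMod p) ^ 2 := by
    push_cast at h0
    linear_combination h0
  have h4 : p % 4 ≠ 3 := ZMod.mod_four_ne_three_of_sq_eq_neg_sq' hy hxy
  omega

/-- two prime factors -/
theorem g1 : S_GU → S_GA → S_GR → S_G1 := by
  intro hU hA hR n hn hsq h2
  haveI := h2.ded
  have hD1 : n ^ 2 + 4 ≠ 1 := by
    have : 4 ≤ n ^ 2 + 4 := Nat.le_add_left _ _
    intro h
    rw [h] at this
    exact absurd this (by norm_num)
  obtain ⟨p, hp, hpD⟩ := Nat.exists_prime_and_dvd hD1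
  obtain ⟨m, hm⟩ := id hpD
  have hm1 : m ≠ 1 := by
    rintro rfl
    apply hA n hn hsq h2
    rw [hm, mul_one]
    exact hp
  obtain ⟨q, hq, k, hk⟩ := Nat.exists_prime_and_dvd hm1
  have hD : n ^ 2 + 4 = p * q * k := by rw [hm, hk, mul_assoc]
  have hqD : q ∣ n ^ 2 + 4 := ⟨p * k, by rw [hD]; ring⟩
  have hpq : p ≠ q := by
    rintro rfl
    exact hp.one_lt.ne' (Nat.isUnit_iff.mp (hsq p ⟨k, hD⟩))
  obtain ⟨hp2, hp4⟩ := mod4 hn hp hpD
  obtain ⟨hq2, hq4⟩ := mod4 hn hq hqD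
  by_cases hk1 : k = 1
  · rw [hk1, mul_one] at hD
    rcases lt_or_gt_of_ne hpq with h | h
    · exact ⟨p, q, hp, hq, h, hp4, hq4, hD⟩
    · exact ⟨q, p, hq, hp, h, hq4, hp4, by rw [hD, mul_comm]⟩
  · exfalso
    have hk0 : k ≠ 0 := by
      rintro rfl
      have : 4 ≤ n ^ 2 + 4 := Nat.le_add_left _ _
      rw [hD, mul_zero] at this
      exact absurd this (by norm_num)
    have hk2 : 1 < k := by omega
    have hpq1 : 1 < p * q := one_lt_mul'' hp.one_lt hq.one_lt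
    have hpqD : p * q < n ^ 2 + 4 := by
      rw [hD]
      exact lt_mul_of_one_lt_right (by omega) hk2
    have hplt : p < n ^ 2 + 4 :=
      lt_of_lt_of_le (lt_mul_of_one_lt_right hp.pos hq.one_lt) hpqD.le
    have hqlt : q < n ^ 2 + 4 :=
      lt_of_lt_of_le (lt_mul_of_one_lt_left hq.pos hp.one_lt) hpqD.le
    obtain ⟨I, hI, hI2⟩ := (hR n hn p hp hp2).2 hsq hpD
    obtain ⟨J, hJ, hJ2⟩ := (hR n hn q hq hq2).2 hsq hqD
    have hIp := hU n hn hsq inferInstance p hpD hp.one_lt hplt I hI2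
    have hJp := hU n hn hsq inferInstance q hqD hq.one_lt hqlt J hJ2
    have hIb : I ≠ ⊥ := by
      rintro rfl
      rw [Ideal.absNorm_bot] at hI
      exact hp.ne_zero hI.symm
    have hJb : J ≠ ⊥ := by
      rintro rfl
      rw [Ideal.absNorm_bot] at hJ
      exact hq.ne_zero hJ.symm
    refine hU n hn hsq inferInstance (p * q) ⟨k, hD⟩ hpq1 hpqD (I * J) ?_
      (h2.mp I J hIb hJb hIp hJp)
    rw [mul_pow, hI2, hJ2, Ideal.span_singleton_mul_span_singleton, Nat.cast_mul]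

end Pool.Agent.N75.LEG1
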