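import Pool.Agent.N585.WC.Defs

/-!
# Project WC, part 1: Booth's lemma
-/

set_option autoImplicit false

namespace Pool.Agent.N75.WCMA

open Cardinal Set Pool.Agent.N585.WC

/-- the conditions -/
structure Cond {I : Type} (F : I → Set ℕ) where
  s : Finset ℕ
  E : Finset I

instance {I : Type} (F : I → Set ℕ) : Preorder (Cond F) where
  le p q := q.s ⊆ p.s ∧ q.E ⊆ p.E ∧ ∀ n ∈ p.s, n ∉ q.s → ∀ i ∈ q.E, n ∈ F i
  le_refl p := ⟨subset_rfl, subset_rfl, fun n h1 h2 => absurd h1 h2⟩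
  le_trans p q r h1 h2 := by
    refine ⟨h2.1.trans h1.1, h2.2.1.trans h1.2.1, fun n hn hn' i hi => ?_⟩
    by_cases h : n ∈ q.s
    · exact h2.2.2 n h hn' i hi
    · exact h1.2.2 n hn h i (h2.2.1 hi)

theorem le_iff {I : Type} {F : I → Set ℕ} (p q : Cond F) :
    p ≤ q ↔ q.s ⊆ p.s ∧ q.E ⊆ p.E ∧ ∀ n ∈ p.s, n ∉ q.s → ∀ i ∈ q.E, n ∈ F i := Iff.rfl

theorem stmMA : StmMA := by
  classical
  intro MA hc I F hI hF
  have hne : Nonempty (Cond F) := ⟨⟨∅, ∅⟩⟩
  set D : I → Set (Cond F) := fun i => {p | i ∈ p.E} with hD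
  set D' : ℕ → Set (Cond F) := fun k => {p | k ≤ p.s.card} with hD'
  obtain ⟨G, -, -, hG2, hG3⟩ := MA (Cond F) (by
    intro A hA
    refine Set.countable_of_injective_of_countable_image (f := fun p : Cond F => p.s) ?_
      (Set.to_countable _)
    intro p hp q hq hpq
    by_contra hne'
    refine hA p hp q hq hne' ⟨⟨p.s, p.E ∪ q.E⟩, ?_, ?_⟩
    · rw [le_iff]
      exact ⟨subset_rfl, Finset.subset_union_left, fun n h1 h2 => absurd h1 h2⟩
    · rw [le_iff]
      have hpq' : p.s = q.s := hpq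
      exact ⟨hpq'.symm.subset, Finset.subset_union_right, fun n h1 h2 =>
        absurd (hpq' ▸ h1) h2⟩) (Set.range D ∪ Set.range D') (by
    refine lt_of_le_of_lt ((Cardinal.mk_union_le _ _).trans ?_) hc
    have h0 : ℵ₀ ≤ (ℵ₁ : Cardinal.{0}) := Cardinal.aleph0_le_aleph 1
    refine Cardinal.add_le_of_le h0 (Cardinal.mk_range_le.trans hI) (Cardinal.mk_range_le.trans ?_)
    rw [Cardinal.mk_nat]
    exact h0) (by
    rintro _ (⟨i, rfl⟩ | ⟨k, rfl⟩) p
    · refine ⟨⟨p.s, insert i p.E⟩, Finset.mem_insert_self _ _, ?_⟩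
      rw [le_iff]
      exact ⟨subset_rfl, Finset.subset_insert _ _, fun n h1 h2 => absurd h1 h2⟩
    · have h1 := (hF p.E).diff (p.s.finite_toSet)
      obtain ⟨t, ht, htc⟩ := h1.exists_subset_card_eq k
      refine ⟨⟨p.s ∪ t, p.E⟩, ?_, ?_⟩
      · rw [hD']
        show k ≤ (p.s ∪ t).card
        rw [← htc]
        exact Finset.card_le_card Finset.subset_union_right
      · rw [le_iff]
        refine ⟨Finset.subset_union_left, subset_rfl, fun n hn hn' i hi => ?_⟩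
        rcases Finset.mem_union.1 hn with h2 | h2
        · exact absurd h2 hn'
        · have h3 := (ht h2).1
          rw [Set.mem_iInter₂] at h3
          exact h3 i hi)
  refine ⟨{n | ∃ p ∈ G, n ∈ p.s}, ?_, ?_⟩
  · intro hfin
    obtain ⟨p, hpG, hpD⟩ := hG3 (D' (hfin.toFinset.card + 1)) (Or.inr ⟨_, rfl⟩)
    have h1 : p.s ⊆ hfin.toFinset := fun n hn => by
      rw [Set.Finite.mem_toFinset]
      exact ⟨p, hpG, hn⟩
    have h2 := Finset.card_le_card h1
    have h3 : hfin.toFinset.card + 1 ≤ p.s.card := hpD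
    omega
  · intro i
    obtain ⟨p, hpG, hpD⟩ := hG3 (D i) (Or.inl ⟨i, rfl⟩)
    refine Set.Finite.subset p.s.finite_toSet ?_
    rintro n ⟨⟨q, hqG, hnq⟩, hn⟩
    obtain ⟨r, -, hrp, hrq⟩ := hG2 p hpG q hqG
    by_contra hnp
    exact hn (hrp.2.2 n (hrq.1 hnq) hnp i hpD)

end Pool.Agent.N75.WCMA
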