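import Mathlib
import Pool.Agent.N604.MW.Stm10
import Pool.Agent.N459.KW_DBC

/-!
# Project AD (helper604), task ABC (helper75): Borel-Cantelli
-/

set_option autoImplicit false

namespace Pool.Agent.N75.AD

open Finset MeasureTheory Pool.Agent.N604.MW Filter
open Pool.Agent.N459.KW (bc)

lemma summ2 (C : ℝ) (a : ℕ) {c : ℝ} (hc : 0 < c) :
    Summable fun ν : ℕ => C * ((ν : ℝ) + 1) ^ a * (2 : ℝ) ^ ((ν : ℝ) * (-c)) := by
  set q : ℝ := (2 : ℝ) ^ (-c) with hq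
  have hq0 : 0 < q := Real.rpow_pos_of_pos (by norm_num) _
  have hq1 : q < 1 := Real.rpow_lt_one_of_one_lt_of_neg (by norm_num) (by linarith)
  have h1 : Summable fun ν : ℕ => (ν : ℝ) ^ a * q ^ ν :=
    summable_pow_mul_geometric_of_norm_lt_one a (by rwa [Real.norm_of_nonneg hq0.le])
  have h2 := ((summable_nat_add_iff 1).2 h1).mul_left (C * q⁻¹)
  refine h2.congr fun ν => ?_
  have e2 : (2 : ℝ) ^ ((ν : ℝ) * (-c)) = q ^ ν := by
    rw [hq, ← Real.rpow_natCast, ← Real.rpow_mul (by norm_num)]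
    congr 1
    ring
  rw [e2]
  push_cast
  rw [pow_succ]
  field_simp

lemma SG_cont (s k ν : ℕ) :
    Continuous fun p : (Fin s → ℝ) × ℝ => ∏ i, ‖SG (BX ν) (fk k (p.1 i)) p.2‖ := by
  unfold SG fk
  refine continuous_finsetProd _ fun i _ => Continuous.norm ?_
  refine continuous_finsetSum _ fun x _ => e_continuous.comp ?_
  fun_prop

lemma SG_cont1 (s k ν : ℕ) (α : Fin s → ℝ) :
    Continuous fun t : ℝ => ∏ i, ‖SG (BX ν) (fk k (α i)) t‖ := by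
  unfold SG fk
  refine continuous_finsetProd _ fun i _ => Continuous.norm ?_
  refine continuous_finsetSum _ fun x _ => e_continuous.comp ?_
  fun_prop

lemma intProd_measurable (s k ν : ℕ) (η η' : ℝ) :
    Measurable fun α : Fin s → ℝ => ∫ t in Arc η η', ∏ i, ‖SG (BX ν) (fk k (α i)) t‖ := by
  have h : StronglyMeasurable fun p : (Fin s → ℝ) × ℝ => ∏ i, ‖SG (BX ν) (fk k (p.1 i)) p.2‖ :=
    (SG_cont s k ν).measurable.stronglyMeasurable
  exact (h.integral_prod_right (ν := volume.restrict (Arc η η'))).measurable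

lemma EA_measurable (s k : ℕ) (a : Fin s → ℕ) (η : ℝ) (n : ℤ) :
    Measurable fun α : Fin s → ℝ => EA s k a η α n := by
  unfold EA
  have h : StronglyMeasurable fun p : (Fin s → ℝ) × ℝ =>
      (Pool.Agent.N604.MW.sq p.2 : ℂ) * (∏ i, SX k (a i) (p.1 i * p.2)) * e (-(p.2 * n)) := by
    refine Measurable.stronglyMeasurable (Continuous.measurable ?_)
    refine (Continuous.mul (Continuous.mul ?_ ?_) ?_)
    · refine Complex.continuous_ofReal.comp ?_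
      unfold Pool.Agent.N604.MW.sq
      exact (Real.continuous_sinc.comp (by fun_prop)).pow 2
    · refine continuous_finsetProd _ fun i _ => ?_
      unfold SX
      refine continuous_finsetSum _ fun x _ => continuous_const.mul (e_continuous.comp ?_)
      fun_prop
    · refine e_continuous.comp ?_
      fun_prop
  exact (h.integral_prod_right (ν := volume.restrict {t : ℝ | η ≤ |t|})).measurable

/-- the first exceptional set -/
def E1 (s k : ℕ) (δ δ' : ℝ) (ν : ℕ) : Set (Fin s → ℝ) :=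
  {α | (2 : ℝ) ^ ((ν : ℝ) * ((s : ℝ) - k - δ')) <
    ∫ t in Arc ((2 : ℝ) ^ ((ν : ℝ) * (-(k : ℝ) + δ))) ((2 : ℝ) ^ (-((k : ℝ) * ν / 2))),
      ∏ i, ‖SG (BX ν) (fk k (α i)) t‖}

lemma part1 (h5 : S_AL1) {k s : ℕ} {δ δ' : ℝ} (hk : 3 ≤ k) (hks : k < s) (hδ0 : 0 < δ)
    (hδ1 : δ < k / 2) (hδ' : δ' < δ * (((s : ℝ) - k) / k)) :
    ∀ᵐ α ∂(GM s), ∃ ν0 : ℕ, ∀ ν, ν0 ≤ ν → α ∉ E1 s k δ δ' ν := by
  obtain ⟨C, hC, hX⟩ := h5 k s δ hk hks hδ0 hδ1
  refine bc (GM s) _ _ (summ2 C 0 (sub_pos.2 hδ')) 0 fun ν _ => ?_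
  have hb := hX ν
  set T : ℝ := (2 : ℝ) ^ ((ν : ℝ) * ((s : ℝ) - k - δ')) with hT
  have hTpos : 0 < T := Real.rpow_pos_of_pos (by norm_num) _
  set I : (Fin s → ℝ) → ℝ := fun α =>
    ∫ t in Arc ((2 : ℝ) ^ ((ν : ℝ) * (-(k : ℝ) + δ))) ((2 : ℝ) ^ (-((k : ℝ) * ν / 2))),
      ∏ i, ‖SG (BX ν) (fk k (α i)) t‖ with hI
  have hImeas : Measurable I := intProd_measurable s k ν _ _
  have hsub : E1 s k δ δ' ν ⊆ {α | ENNReal.ofReal T ≤ ENNReal.ofReal (I α)} := by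
    intro α hα
    exact ENNReal.ofReal_le_ofReal (le_of_lt hα)
  have hmark := meas_ge_le_lintegral_div (μ := GM s) (hImeas.ennreal_ofReal.aemeasurable)
    (ε := ENNReal.ofReal T) (by simpa using hTpos) ENNReal.ofReal_ne_top
  have hle : ∫⁻ α, ENNReal.ofReal (I α) ∂(GM s) ≤
      ∫⁻ α, (∫⁻ t in Arc ((2 : ℝ) ^ ((ν : ℝ) * (-(k : ℝ) + δ))) ((2 : ℝ) ^ (-((k : ℝ) * ν / 2))),
      ENNReal.ofReal (∏ i, ‖SG (BX ν) (fk k (α i)) t‖)) ∂(GM s) := by
    refine lintegral_mono fun α => ?_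
    simp only [hI]
    rw [integral_eq_lintegral_of_nonneg_ae]
    · exact ENNReal.ofReal_toReal_le
    · exact Filter.Eventually.of_forall fun β => Finset.prod_nonneg fun i _ => norm_nonneg _
    · exact (SG_cont1 s k ν α).aestronglyMeasurable
  refine (measure_mono hsub).trans (hmark.trans ?_)
  refine (ENNReal.div_le_div_right (hle.trans hb) _).trans ?_
  rw [← ENNReal.ofReal_div_of_pos hTpos]
  refine ENNReal.ofReal_le_ofReal (le_of_eq ?_)
  rw [div_eq_iff hTpos.ne', pow_zero, mul_one, mul_assoc, hT, ← Real.rpow_add (by norm_num)]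
  congr 2
  ring

/-- the second exceptional set -/
def E2 (s k : ℕ) (δ' : ℝ) (ν : ℕ) : Set (Fin s → ℝ) :=
  {α | ∃ n : ℤ, |(n : ℝ)| ≤ (2 : ℝ) ^ ((ν : ℝ) * ((k : ℝ) + 1 / 4)) ∧
    ∃ a : Fin s → ℕ, (∀ i, a i ≤ ν) ∧ (2 : ℝ) ^ ((ν : ℝ) * ((s : ℝ) - k - 2 * δ')) <
      ‖EA s k a ((2 : ℝ) ^ (-((k : ℝ) * ν / 2))) α n‖}

lemma part2 (h1 : S_AMOM) (h2 : S_AHOL) (h3 : S_AKEY) {r m k s : ℕ} {δ' : ℝ} (hr : 1 ≤ r) (hrk : r + 8 ≤ k)
    (hrk' : 6 * r ≤ k) (hnr : nr r ≤ 2 * m) (hks : k < s)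
    (hH : r * k + k + 2 + (2 * m - r) * (r + 1) ≤ r * s)
    (hH' : 6 * m * r + 3 * k * nr r + 5 * (k + 2) ≤ 4 * m * (s - k)) (hm : 1 ≤ m)
    (hδ' : 4 * m * δ' < 3 / 4) :
    ∀ᵐ α ∂(GM s), ∃ ν0 : ℕ, ∀ ν, ν0 ≤ ν → α ∉ E2 s k δ' ν := by
  obtain ⟨ν0, hν0⟩ := h3 r m k s hr hrk hrk' hnr hks hH hH'
  refine bc (GM s) _ _ (summ2 (9 * 2 ^ (2 * m * s)) s (sub_pos.2 hδ')) ν0 fun ν hν => ?_
  have hkey := hν0 ν hν
  set η : ℝ := (2 : ℝ) ^ (-((k : ℝ) * ν / 2)) with hη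
  have hη0 : 0 < η := Real.rpow_pos_of_pos (by norm_num) _
  set T : ℝ := (2 : ℝ) ^ ((ν : ℝ) * ((s : ℝ) - k - 2 * δ')) with hT
  have hTpos : 0 < T := Real.rpow_pos_of_pos (by norm_num) _
  -- one integer and one vector of blocks
  have hone : ∀ (n : ℤ) (a : Fin s → ℕ), (∀ i, a i ≤ ν) → (GM s) {α | T < ‖EA s k a η α n‖} ≤
      ENNReal.ofReal (3 * 2 ^ (2 * m * s) * (2 : ℝ) ^ ((ν : ℝ) * (4 * m * δ' - k - 1))) := by
    intro n a ha
    have hTm : 0 < T ^ (2 * m) := pow_pos hTpos _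
    have hsub : {α : Fin s → ℝ | T < ‖EA s k a η α n‖} ⊆
        {α | ENNReal.ofReal (T ^ (2 * m)) ≤ ENNReal.ofReal (‖EA s k a η α n‖ ^ (2 * m))} := by
      intro α hα
      exact ENNReal.ofReal_le_ofReal (pow_le_pow_left₀ hTpos.le (le_of_lt hα) _)
    have hmeas : Measurable fun α : Fin s → ℝ => ENNReal.ofReal (‖EA s k a η α n‖ ^ (2 * m)) :=
      ((EA_measurable s k a η n).norm.pow_const _).ennreal_ofReal
    have hmark := meas_ge_le_lintegral_div (μ := GM s) hmeas.aemeasurable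
      (ε := ENNReal.ofReal (T ^ (2 * m))) (by simpa using hTm) ENNReal.ofReal_ne_top
    refine (measure_mono hsub).trans (hmark.trans ?_)
    have hS : MeasurableSet {γ : Fin (2 * m) → ℝ | ∀ j, η ≤ |γ j|} := by
      rw [Set.setOf_forall]
      refine MeasurableSet.iInter fun j => ?_
      exact (isClosed_le continuous_const (by fun_prop)).measurableSet
    have hhol := h2 s (2 * m) k a {γ : Fin (2 * m) → ℝ | ∀ j, η ≤ |γ j|} _ (by omega) hS
      (fun i => hkey (a i) (ha i))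
    have hb := (h1 s m (by omega) hm k a η n hη0.le).trans (mul_le_mul_right hhol _)
    refine (ENNReal.div_le_div_right hb _).trans ?_
    rw [← ENNReal.ofReal_mul (by positivity), ← ENNReal.ofReal_div_of_pos hTm]
    refine ENNReal.ofReal_le_ofReal (le_of_eq ?_)
    rw [div_eq_iff hTm.ne']
    have e0 : (2 : ℝ) ^ ((ν : ℝ) * (2 * (m : ℝ) * ((s : ℝ) - k) - k - 1)) =
        (2 : ℝ) ^ ((ν : ℝ) * (4 * m * δ' - k - 1)) * T ^ (2 * m) := by
      rw [hT, ← Real.rpow_natCast ((2 : ℝ) ^ ((ν : ℝ) * ((s : ℝ) - k - 2 * δ'))),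
        ← Real.rpow_mul (by norm_num), ← Real.rpow_add (by norm_num)]
      congr 1
      push_cast
      ring
    rw [e0]
    ring
  -- the union
  set Y : ℝ := (2 : ℝ) ^ ((ν : ℝ) * ((k : ℝ) + 1 / 4)) with hY
  have hY1 : 1 ≤ Y := Real.one_le_rpow (by norm_num) (by positivity)
  set M : ℤ := ⌊Y⌋ with hMd
  have hM0 : 0 ≤ M := Int.floor_nonneg.2 (by linarith)
  have hsub : E2 s k δ' ν ⊆ ⋃ z ∈ (Finset.Icc (-M) M) ×ˢ
      (Fintype.piFinset fun _ : Fin s => Finset.range (ν + 1)), {α | T < ‖EA s k z.2 η α z.1‖} := by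
    rintro α ⟨n, hn, a, ha, hα⟩
    have h1 : |n| ≤ M := by
      refine Int.le_floor.2 ?_
      push_cast
      exact hn
    simp only [Set.mem_iUnion]
    refine ⟨(n, a), ?_, hα⟩
    rw [Finset.mem_product]
    refine ⟨Finset.mem_Icc.2 (abs_le.1 h1), ?_⟩
    rw [Fintype.mem_piFinset]
    intro i
    rw [Finset.mem_range]
    exact Nat.lt_succ_of_le (ha i)
  have hcard : (((Finset.Icc (-M) M) ×ˢ
      (Fintype.piFinset fun _ : Fin s => Finset.range (ν + 1))).card : ℝ) ≤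
      3 * Y * ((ν : ℝ) + 1) ^ s := by
    rw [Finset.card_product, Fintype.card_piFinset, Finset.prod_const, Finset.card_univ,
      Fintype.card_fin, Finset.card_range, Int.card_Icc]
    have h2 : (((M + 1 - -M).toNat : ℕ) : ℝ) = 2 * M + 1 := by
      have h3 : (((M + 1 - -M).toNat : ℕ) : ℤ) = M + 1 - -M := Int.toNat_of_nonneg (by omega)
      have h4 : (((M + 1 - -M).toNat : ℕ) : ℝ) = ((M + 1 - -M : ℤ) : ℝ) := by
        rw [← h3]
        rfl
      rw [h4]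
      push_cast
      ring
    rw [Nat.cast_mul, h2]
    push_cast
    have h5 : (M : ℝ) ≤ Y := Int.floor_le _
    exact mul_le_mul_of_nonneg_right (by linarith) (by positivity)
  refine (measure_mono hsub).trans ((measure_biUnion_finset_le _ _).trans ?_)
  refine (Finset.sum_le_card_nsmul _ _ _ fun z hz => hone z.1 z.2 ?_).trans ?_
  · intro i
    have h1 := Fintype.mem_piFinset.1 (Finset.mem_product.1 hz).2 i
    rw [Finset.mem_range] at h1
    omega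
  rw [nsmul_eq_mul, ← ENNReal.ofReal_natCast, ← ENNReal.ofReal_mul (Nat.cast_nonneg _)]
  refine ENNReal.ofReal_le_ofReal ?_
  have hR : 0 ≤ 3 * 2 ^ (2 * m * s) * (2 : ℝ) ^ ((ν : ℝ) * (4 * m * δ' - k - 1)) := by positivity
  refine (mul_le_mul_of_nonneg_right hcard hR).trans (le_of_eq ?_)
  have e1 : Y * (2 : ℝ) ^ ((ν : ℝ) * (4 * m * δ' - k - 1)) =
      (2 : ℝ) ^ ((ν : ℝ) * (-(3 / 4 - 4 * m * δ'))) := by
    rw [hY, ← Real.rpow_add (by norm_num)]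
    congr 1
    ring
  rw [← e1]
  ring

theorem abc (_h0 : S_ATRI) (h1 : S_AMOM) (h2 : S_AHOL) (h3 : S_AKEY) (h4 : S_AEXP) (h5 : S_AL1) :
    S_ABC := by
  intro r m k s δ hr hrk hrk' hnr hks hH hH' hδ0 hδ1
  have hm : 1 ≤ m := by
    have h6 : 1 ≤ nr r := by
      unfold nr
      have h7 : 0 < 4 * r * (r + 2) * 2 ^ (r + 2) := by positivity
      exact h7
    omega
  have hm1 : (1 : ℝ) ≤ m := by exact_mod_cast hm
  have hks' : (k : ℝ) < s := by exact_mod_cast hks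
  have hk0 : (0 : ℝ) < k := by
    have : 0 < k := by omega
    exact_mod_cast this
  set c : ℝ := δ * (((s : ℝ) - k) / k) with hc
  have hc0 : 0 < c := mul_pos hδ0 (div_pos (by linarith) hk0)
  set δ' : ℝ := min (c / 2) (1 / (8 * m)) with hδ'
  have hδ'0 : 0 < δ' := lt_min (by linarith) (by positivity)
  have hδ'c : δ' < c := (min_le_left _ _).trans_lt (by linarith)
  have hδ'm : 4 * m * δ' < 3 / 4 := by
    have h6 : δ' ≤ 1 / (8 * m) := min_le_right _ _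
    have h7 : 4 * (m : ℝ) * δ' ≤ 4 * m * (1 / (8 * m)) := mul_le_mul_of_nonneg_left h6 (by positivity)
    have h8 : 4 * (m : ℝ) * (1 / (8 * m)) = 1 / 2 := by field_simp; norm_num
    linarith
  refine ⟨δ', hδ'0, ?_⟩
  filter_upwards [part1 h5 (by omega : 3 ≤ k) hks hδ0 hδ1 hδ'c,
    part2 h1 h2 h3 hr hrk hrk' hnr hks hH hH' hm hδ'm] with α hα1 hα2
  obtain ⟨ν1, hν1⟩ := hα1
  obtain ⟨ν2, hν2⟩ := hα2
  obtain ⟨ν3, hν3⟩ : ∃ ν3 : ℕ, ∀ ν : ℕ, ν3 ≤ ν → ((ν : ℝ) + 1) ^ s * (2 : ℝ) ^ ((ν : ℝ) * (-δ')) ≤ 1 := by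
    have h6 := (summ2 1 s hδ'0).tendsto_atTop_zero
    have h7 := h6.eventually (ge_mem_nhds (show (0 : ℝ) < 1 by norm_num))
    obtain ⟨ν3, hν3⟩ := eventually_atTop.1 h7
    refine ⟨ν3, fun ν hν => ?_⟩
    have h8 := hν3 ν hν
    rwa [one_mul] at h8
  refine ⟨max ν1 (max ν2 ν3), fun ν hν => ?_⟩
  have a1 := hν1 ν ((le_max_left _ _).trans hν)
  have a2 := hν2 ν (((le_max_left _ _).trans (le_max_right _ _)).trans hν)
  have a3 := hν3 ν (((le_max_right _ _).trans (le_max_right _ _)).trans hν)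
  refine ⟨not_lt.1 a1, fun n hn => ?_⟩
  have h6 := h4 s k ν ((2 : ℝ) ^ (-((k : ℝ) * ν / 2))) ((2 : ℝ) ^ ((ν : ℝ) * ((s : ℝ) - k - 2 * δ'))) α n
    (Real.rpow_pos_of_pos (by norm_num) _).le (fun a ha => by
      by_contra hcon
      exact a2 ⟨n, hn, a, ha, not_le.1 hcon⟩)
  refine h6.trans ?_
  have e1 : (2 : ℝ) ^ ((ν : ℝ) * ((s : ℝ) - k - 2 * δ')) =
      (2 : ℝ) ^ ((ν : ℝ) * (-δ')) * (2 : ℝ) ^ ((ν : ℝ) * ((s : ℝ) - k - δ')) := by
    rw [← Real.rpow_add (by norm_num)]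
    congr 1
    ring
  rw [e1, ← mul_assoc]
  exact mul_le_of_le_one_left (Real.rpow_pos_of_pos (by norm_num) _).le a3

end Pool.Agent.N75.AD
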