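import Pool.Agent.N652.OM.Stm

/-!
# Project OM, leaf GEN: the algebra on one line is generated by four elements
-/

set_option autoImplicit false

namespace Pool.Agent.N75.OMGEN

open Pool.Agent.N652.OM

noncomputable section

/-- the shift by `k` -/
def T (k : ℤ) : MM Unit := Finsupp.lmapDomain F F (fun w : ℤ × Unit => (w.1 + k, w.2))

theorem T_single (k j : ℤ) (b : Unit) (c : F) :
    T k (Finsupp.single (j, b) c) = Finsupp.single (j + k, b) c := by
  unfold T
  rw [Finsupp.lmapDomain_apply, Finsupp.mapDomain_single]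

theorem ext1 {x y : MM Unit}
    (h : ∀ j : ℤ, x (Finsupp.single (j, ()) 1) = y (Finsupp.single (j, ()) 1)) : x = y := by
  refine Finsupp.lhom_ext' fun w => ?_
  obtain ⟨j, b⟩ := w
  refine LinearMap.ext_ring ?_
  exact h j

theorem T_add (k l : ℤ) : T (k + l) = T k * T l := by
  refine ext1 fun j => ?_
  rw [Module.End.mul_apply, T_single, T_single, T_single]
  congr 2
  ring

theorem T_zero : T 0 = 1 := by
  refine ext1 fun j => ?_
  rw [T_single, add_zero]
  rfl

theorem T_Sy (k : ℤ) : Sy (T k) (fun _ => AddMonoidAlgebra.single k 1) := by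
  refine ⟨0, fun b j _ => ?_⟩
  rw [T_single, sh_single]

/-- `v ↦ v_j u` -/
def R (u : Vc Unit) (j : ℤ) : MM Unit :=
  (LinearMap.toSpanSingleton F (Vc Unit) u).comp (Finsupp.lapply (j, ()))

theorem R_apply (u : Vc Unit) (j : ℤ) (v : Vc Unit) : R u j v = v (j, ()) • u := by
  unfold R
  rw [LinearMap.comp_apply, Finsupp.lapply_apply, LinearMap.toSpanSingleton_apply]

theorem R_single (u : Vc Unit) (j i : ℤ) :
    R u j (Finsupp.single (i, ()) 1) = if i = j then u else 0 := by
  rw [R_apply, Finsupp.single_apply]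
  by_cases h : i = j
  · subst h
    simp
  · have h2 : ¬ ((i, ()) : ℤ × Unit) = (j, ()) := fun h3 => h (Prod.ext_iff.1 h3).1
    rw [if_neg h, if_neg h2, zero_smul]

theorem R_Sy (u : Vc Unit) (j : ℤ) : Sy (R u j) 0 := by
  refine ⟨j.natAbs + 1, fun b i hi => ?_⟩
  have h : i ≠ j := by
    rintro rfl
    rw [Int.abs_eq_natAbs] at hi
    push_cast at hi
    omega
  have h2 : sh b i (0 : LaurentPolynomial F) = 0 := by simp [sh]
  rw [Pi.zero_apply, h2]
  have h3 := R_single u j i
  rw [if_neg h] at h3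
  exact h3

theorem R_eq (m n : ℤ) :
    R (Finsupp.single (m, ()) 1) n = T m * R (Finsupp.single (0, ()) 1) 0 * T (-n) := by
  refine ext1 fun j => ?_
  rw [Module.End.mul_apply, Module.End.mul_apply, T_single, R_single, R_single]
  by_cases h : j = n
  · subst h
    rw [if_pos rfl, if_pos (by ring), T_single, zero_add]
  · rw [if_neg h, if_neg (by omega), map_zero]

/-- the generators -/
def g : Fin 4 → Sg Unit :=
  ![⟨T 1, _, T_Sy 1⟩, ⟨T (-1), _, T_Sy (-1)⟩, ⟨R (Finsupp.single (0, ()) 1) 0, _, R_Sy _ _⟩, 1]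

/-- the generated algebra, as an algebra of operators -/
def A' : Subalgebra F (MM Unit) := (Algebra.adjoin F (Set.range g)).map (Sg Unit).val

theorem g_mem (i : Fin 4) : (g i).1 ∈ A' :=
  Subalgebra.mem_map.2 ⟨g i, Algebra.subset_adjoin ⟨i, rfl⟩, rfl⟩

theorem T1_mem : T 1 ∈ A' := g_mem 0
theorem Tn1_mem : T (-1) ∈ A' := g_mem 1
theorem e_mem : R (Finsupp.single (0, ()) 1) 0 ∈ A' := g_mem 2

theorem Tnat_mem (n : ℕ) : T n ∈ A' := by
  induction n with
  | zero => rw [Nat.cast_zero, T_zero]; exact A'.one_mem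
  | succ n ih => rw [Nat.cast_succ, T_add]; exact A'.mul_mem ih T1_mem

theorem Tneg_mem (n : ℕ) : T (-(n : ℤ)) ∈ A' := by
  induction n with
  | zero => rw [Nat.cast_zero, neg_zero, T_zero]; exact A'.one_mem
  | succ n ih =>
    rw [Nat.cast_succ, neg_add, T_add]
    exact A'.mul_mem ih Tn1_mem

theorem T_mem (k : ℤ) : T k ∈ A' := by
  obtain ⟨n, rfl | rfl⟩ := k.eq_nat_or_neg
  · exact Tnat_mem n
  · exact Tneg_mem n

theorem R_mem (u : Vc Unit) (j : ℤ) : R u j ∈ A' := by
  induction u using Finsupp.induction_linear with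
  | zero =>
    have : R 0 j = 0 := by
      refine ext1 fun i => ?_
      rw [R_apply, smul_zero, LinearMap.zero_apply]
    rw [this]
    exact A'.zero_mem
  | add u v hu hv =>
    have : R (u + v) j = R u j + R v j := by
      refine ext1 fun i => ?_
      rw [LinearMap.add_apply, R_apply, R_apply, R_apply, smul_add]
    rw [this]
    exact A'.add_mem hu hv
  | single w c =>
    obtain ⟨i, b⟩ := w
    have : R (Finsupp.single (i, b) c) j = c • R (Finsupp.single (i, ()) 1) j := by
      refine ext1 fun l => ?_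
      have hc : (Finsupp.single (i, b) c : Vc Unit) = c • Finsupp.single (i, ()) 1 := by
        rw [Finsupp.smul_single, smul_eq_mul, mul_one]
      rw [LinearMap.smul_apply, R_apply, R_apply, hc, smul_comm]
    rw [this, R_eq]
    exact A'.smul_mem (A'.mul_mem (A'.mul_mem (T_mem _) e_mem) (T_mem _)) c

theorem all_mem (x : MM Unit) (p : Unit → LaurentPolynomial F) (hx : Sy x p) : x ∈ A' := by
  obtain ⟨N, hN⟩ := hx
  have h1 : ∑ k ∈ (p ()).coeff.support, (p ()).coeff k • T k ∈ A' :=
    A'.sum_mem fun k _ => A'.smul_mem (T_mem k) _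
  set z := ∑ k ∈ (p ()).coeff.support, (p ()).coeff k • T k with hz
  have hzj : ∀ j : ℤ, z (Finsupp.single (j, ()) 1) = sh () j (p ()) := by
    intro j
    rw [hz, LinearMap.sum_apply]
    unfold sh
    rw [Finsupp.mapDomain, Finsupp.sum]
    refine Finset.sum_congr rfl fun k _ => ?_
    rw [LinearMap.smul_apply, T_single, Finsupp.smul_single, smul_eq_mul, mul_one]
  have h2 : x - z = ∑ j ∈ Finset.Icc (-(N : ℤ)) N, R ((x - z) (Finsupp.single (j, ()) 1)) j := by
    refine ext1 fun i => ?_
    rw [LinearMap.sum_apply]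
    simp only [R_single]
    rw [Finset.sum_ite_eq]
    by_cases h : i ∈ Finset.Icc (-(N : ℤ)) N
    · rw [if_pos h]
    · rw [if_neg h, LinearMap.sub_apply, hzj, hN () i, sub_self]
      rw [Finset.mem_Icc] at h
      by_contra h3
      push Not at h3
      exact h (abs_le.1 h3.le)
  have h3 : x - z ∈ A' := by
    rw [h2]
    exact A'.sum_mem fun j _ => R_mem _ _
  have h4 : x = (x - z) + z := (sub_add_cancel x z).symm
  rw [h4]
  exact A'.add_mem h3 h1

theorem main : Pool.Agent.N652.OM.S_GEN := by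
  refine ⟨g, ?_⟩
  rw [Algebra.eq_top_iff]
  rintro ⟨x, p, hp⟩
  obtain ⟨y, hy, hyx⟩ := Subalgebra.mem_map.1 (all_mem x p hp)
  have : y = ⟨x, p, hp⟩ := Subtype.ext hyx
  rw [← this]
  exact hy

end

end Pool.Agent.N75.OMGEN
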