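import Pool.Agent.N709.UM.Stm2

/-!
# Project UM2, leaf LW2: short words do not represent `z` (helper75 for helper709)
-/

set_option autoImplicit false

universe u

namespace Pool.Agent.N75.UM2LW2

open Pool.Agent.N709.UM

theorem bel_cons {G : Type u} {k : ℕ} {a : G ⊕ (ℕ × Bool)} {w : List (G ⊕ (ℕ × Bool))}
    (h : Bel k (a :: w)) : Bel k w :=
  fun j s hj => h j s (List.mem_cons_of_mem _ hj)

theorem cnt_bel {G : Type u} {k j j' : ℕ} (hkj : k ≤ j + 1) (hkj' : k ≤ j' + 1)
    (w : List (G ⊕ (ℕ × Bool))) (h : Bel k w) : cnt j w = cnt j' w := by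
  induction w with
  | nil => rfl
  | cons a w ih =>
    have h1 := ih (bel_cons h)
    rcases a with g | ⟨i, s⟩
    · exact h1
    · have h2 := h i s List.mem_cons_self
      simp only [cnt]
      rw [if_pos (by omega), if_pos (by omega), h1]

theorem cnt_bel0 {G : Type u} (j : ℕ) (w : List (G ⊕ (ℕ × Bool))) (h : Bel 0 w) : cnt j w = 0 := by
  induction w with
  | nil => rfl
  | cons a w ih =>
    have h1 := ih (bel_cons h)
    rcases a with g | ⟨i, s⟩
    · exact h1
    · exact absurd (h i s List.mem_cons_self) (Nat.not_lt_zero _)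

theorem cnt_mem {G : Type u} {j : ℕ} {s : Bool} {w : List (G ⊕ (ℕ × Bool))}
    (h : (Sum.inr (j, s) : G ⊕ (ℕ × Bool)) ∈ w) : 1 ≤ cnt j w := by
  induction w with
  | nil => simp at h
  | cons a w ih =>
    rw [List.mem_cons] at h
    rcases h with h | h
    · rw [← h]
      simp only [cnt]
      rw [if_pos le_rfl]
      omega
    · have h1 := ih h
      rcases a with g | ⟨i, s'⟩
      · exact h1
      · simp only [cnt]
        omega

theorem ex_bel {G : Type u} (K : ℕ) (w : List (G ⊕ (ℕ × Bool))) : ∃ k, K ≤ k ∧ Bel k w := by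
  induction w with
  | nil => exact ⟨K, le_rfl, fun j s h => absurd h (by simp)⟩
  | cons a w ih =>
    obtain ⟨k, hk, hb⟩ := ih
    rcases a with g | ⟨i, s⟩
    · refine ⟨k, hk, fun j s hj => ?_⟩
      rw [List.mem_cons] at hj
      rcases hj with hj | hj
      · exact absurd hj (by simp)
      · exact hb j s hj
    · refine ⟨max k (i + 1), hk.trans (le_max_left _ _), fun j s' hj => ?_⟩
      rw [List.mem_cons] at hj
      rcases hj with hj | hj
      · simp only [Sum.inr.injEq, Prod.mk.injEq] at hj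
        rw [hj.1]
        exact lt_of_lt_of_le (Nat.lt_succ_self i) (le_max_right _ _)
      · exact lt_of_lt_of_le (hb j s' hj) (le_max_left _ _)

theorem noletter {G : Type u} [Group G] (U : Subgroup G) (y : ℕ → G) (w : List (G ⊕ (ℕ × Bool)))
    (h : ∀ j s, (Sum.inr (j, s) : G ⊕ (ℕ × Bool)) ∉ w)
    (hu : ∀ g : G, (Sum.inl g : G ⊕ (ℕ × Bool)) ∈ w → g ∈ U) : ev y w ∈ U := by
  induction w with
  | nil =>
    simp only [ev]
    exact U.one_mem
  | cons a w ih =>
    have h1 := ih (fun j s hj => h j s (List.mem_cons_of_mem _ hj))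
      (fun g hg => hu g (List.mem_cons_of_mem _ hg))
    rcases a with g | ⟨i, s⟩
    · simp only [ev]
      exact U.mul_mem (hu g List.mem_cons_self) h1
    · exact absurd List.mem_cons_self (h i s)

theorem pp_one {G : Type u} [Group G] (y : ℕ → G) (k : ℕ) : (1 : G) ∈ pp y k := by
  induction k with
  | zero => exact rfl
  | succ k ih => exact ⟨1, ih, 0, by simp, by simp⟩

theorem lw2 : Pool.Agent.N709.UM.Rm2.{u} → Pool.Agent.N709.UM.Lw2.{u} := by
  intro hR G _ ρ hρ U y t K r z q hr ht htk hU hcj hcom hzU hzq hloss w hw1 hw2 hw3 he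
  obtain ⟨S, hS⟩ : ∃ S : ℕ → ℝ, S = fun k => ∑ j ∈ Finset.Ico K k, (j : ℝ) * t j := ⟨_, rfl⟩
  have hS1 : ∀ k, K ≤ k → S (k + 1) = S k + (k : ℝ) * t k := by
    intro k hk
    rw [hS]
    exact Finset.sum_Ico_succ_top hk _
  have hSK : S K = 0 := by
    rw [hS]
    simp
  have hS2 : ∀ k, K ≤ k → S k ≤ (4 / 3) * ((1 / 4 : ℝ) ^ K - (1 / 4) ^ k) := by
    intro k hk
    induction k, hk using Nat.le_induction with
    | base => rw [hSK, sub_self, mul_zero]
    | succ k hk ih =>
      rw [hS1 k hk]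
      have h1 := htk k
      have h2 : (1 / 4 : ℝ) ^ (k + 1) = (1 / 4) ^ k * (1 / 4) := pow_succ _ _
      rw [h2]
      linarith
  have hS3 : ∀ k, K ≤ k → S k ≤ 2 * (1 / 4 : ℝ) ^ K := by
    intro k hk
    have h1 := hS2 k hk
    have h2 : (0 : ℝ) < (1 / 4) ^ k := by positivity
    have h3 : (0 : ℝ) < (1 / 4) ^ K := by positivity
    linarith
  have hq : q ∉ U := by
    intro h
    apply hzU
    have h1 := U.mul_mem hzq (U.inv_mem h)
    rwa [mul_inv_cancel_right] at h1
  have claim : ∀ k, K ≤ k → ∀ w : List (G ⊕ (ℕ × Bool)), Bel k w → (∀ j, j < K → cnt j w = 0) →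
      (∀ j, K ≤ j → cnt j w ≤ j - 1) → Sm ρ (r + 2 * (1 / 4 : ℝ) ^ K - S k) w →
      ∃ u ∈ U, ∃ h ∈ pp y k, h * q ∉ U ∧ ev y w = u * h := by
    intro k hk
    induction k, hk using Nat.le_induction with
    | base =>
      intro w hb hc _ hs
      refine ⟨ev y w, noletter U y w (fun j s hj => ?_) (fun g hg => ?_), 1, pp_one y K, ?_, ?_⟩
      · have h1 := hb j s hj
        have h2 := cnt_mem hj
        rw [hc j h1] at h2
        omega
      · have h1 := hs g hg
        rw [hSK, sub_zero] at h1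
        exact hU g h1
      · rwa [one_mul]
      · rw [mul_one]
    | succ k hk ih =>
      intro w hb hc1 hc2 hs
      have hck := hc2 k hk
      have hckr : ((cnt k w : ℕ) : ℝ) ≤ k := by exact_mod_cast (by omega : cnt k w ≤ k)
      have hkt : ((cnt k w : ℕ) : ℝ) * t k ≤ (k : ℝ) * t k :=
        mul_le_mul_of_nonneg_right hckr (ht k)
      have hrr : r ≤ r + 2 * (1 / 4 : ℝ) ^ K - S (k + 1) := by
        have := hS3 (k + 1) (by omega)
        linarith
      obtain ⟨w', M, g1, g2, g3, g4, g5⟩ := hR G ρ hρ (r + 2 * (1 / 4 : ℝ) ^ K - S (k + 1)) (t k)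
        (ht k) y k (hcj k hk) (fun j hj c hc =>
          ⟨lt_of_lt_of_le (hcom k hk j hj c hc).1 hrr, lt_of_lt_of_le (hcom k hk j hj c hc).2 hrr⟩)
        w hb hs
      have hs' : Sm ρ (r + 2 * (1 / 4 : ℝ) ^ K - S k) w' := by
        intro g hg
        have h1 := g4 g hg
        rw [hS1 k hk] at h1
        linarith
      have hc1' : ∀ j, j < K → cnt j w' = 0 := by
        intro j hj
        have h6 := g2 j (by omega)
        rw [hc1 j hj] at h6
        omega
      have hc2' : ∀ j, K ≤ j → cnt j w' ≤ j - 1 := by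
        intro j hj
        rcases lt_or_ge j k with hjk | hjk
        · exact (g2 j hjk).trans (hc2 j hj)
        · rcases Nat.eq_zero_or_pos k with hk0 | hk0
          · subst hk0
            rw [cnt_bel0 j w' g1]
            omega
          · have h1 : cnt j w' = cnt (k - 1) w' := cnt_bel (by omega) (by omega) w' g1
            have h2 := g2 (k - 1) (by omega)
            rcases lt_or_ge (k - 1) K with h3 | h3
            · have h4 := hc1 (k - 1) h3
              omega
            · have h4 := hc2 (k - 1) h3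
              omega
      obtain ⟨u, hu, h, hh, hhq, hev⟩ := ih w' g1 hc1' hc2' hs'
      have hMk : M.natAbs ≤ k := by omega
      refine ⟨u, hu, h * y k ^ M, ⟨h, hh, M, hMk, rfl⟩, hloss k hk h hh hhq M hMk, ?_⟩
      rw [g5, hev, mul_assoc]
  obtain ⟨k, hk, hb⟩ := ex_bel K w
  obtain ⟨u, hu, h, hh, hhq, hev⟩ := claim k hk w hb hw1 hw2 (fun g hg => by
    have h1 := hw3 g hg
    have h2 := hS3 k hk
    linarith)
  apply hhq
  have h1 : h * q = u⁻¹ * (z * q) := by
    rw [← he, hev]
    group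
  rw [h1]
  exact U.mul_mem (U.inv_mem hu) hzq

end Pool.Agent.N75.UM2LW2
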