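import Pool.Agent.N502.TM.Stm

/-! # Project TM (helper502), QWW: random lines and the kernel `|z|^(-m)`. By helper75. -/

set_option autoImplicit false

namespace Pool.Agent.N75.TM_QWW

open MeasureTheory Set Filter Topology Metric
open scoped ENNReal Real InnerProductSpace
open Pool.Agent.N502.TM

/-! ### Radial integration -/

theorem lint_radial {d : ℕ} (hd : 1 ≤ d) (f : ℝ → ℝ≥0∞) (hf : Measurable f) :
    ∫⁻ x : V d, f ‖x‖ = ((d : ℝ≥0∞) * volume (ball (0 : V d) 1)) *
      ∫⁻ y in Ioi (0 : ℝ), ENNReal.ofReal (y ^ (d - 1)) * f y := by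
  haveI : Nonempty (Fin d) := ⟨⟨0, hd⟩⟩
  haveI : Nontrivial (V d) := inferInstance
  have hfr : Module.finrank ℝ (V d) = d := by simp
  calc ∫⁻ x : V d, f ‖x‖ = ∫⁻ x in ({(0 : V d)}ᶜ : Set (V d)), f ‖x‖ := by
        rw [restrict_compl_singleton]
    _ = ∫⁻ x : ({(0 : V d)}ᶜ : Set (V d)), f (‖x.1‖) ∂(volume.comap Subtype.val) := by
        rw [lintegral_subtype_comap (measurableSet_singleton _).compl fun x : V d ↦ f (‖x‖)]
    _ = ∫⁻ x : sphere (0 : V d) 1 × Ioi (0 : ℝ), f x.2
          ∂(volume : Measure (V d)).toSphere.prod (.volumeIoiPow (Module.finrank ℝ (V d) - 1)) := by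
        have hm : Measurable (fun x : sphere (0 : V d) 1 × Ioi (0 : ℝ) => f x.2) :=
          hf.comp (measurable_subtype_coe.comp measurable_snd)
        rw [← ((volume : Measure (V d)).measurePreserving_homeomorphUnitSphereProd).lintegral_comp hm]
        simp
    _ = (volume : Measure (V d)).toSphere univ *
          ∫⁻ x : Ioi (0 : ℝ), f x ∂.volumeIoiPow (Module.finrank ℝ (V d) - 1) := by
        have hm : Measurable (fun x : sphere (0 : V d) 1 × Ioi (0 : ℝ) => f x.2) :=
          hf.comp (measurable_subtype_coe.comp measurable_snd)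
        rw [lintegral_prod _ hm.aemeasurable]
        simp only [lintegral_const]
        rw [mul_comm]
    _ = _ := by
        rw [Measure.toSphere_apply_univ, hfr]
        congr 1
        rw [Measure.volumeIoiPow, lintegral_withDensity_eq_lintegral_mul _
          (by exact ((measurable_subtype_coe.pow_const _).ennreal_ofReal))
          (show Measurable (fun x : Ioi (0 : ℝ) => f x) from hf.comp measurable_subtype_coe)]
        exact lintegral_subtype_comap measurableSet_Ioi
          (fun y : ℝ => ENNReal.ofReal (y ^ (d - 1)) * f y)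

/-! ### The action of the orthogonal group -/

theorem act_mul {d : ℕ} (g h : O d) (x : V d) : act (g * h) x = act g (act h x) := by
  unfold act
  simp [Matrix.toEuclideanLin_apply, Matrix.mulVec_mulVec]

theorem act_one {d : ℕ} (x : V d) : act (1 : O d) x = x := by
  unfold act
  simp [Matrix.toEuclideanLin_apply]

theorem act_neg_one {d : ℕ} (x : V d) : act (-1 : O d) x = -x := by
  have h : ((-1 : O d) : Matrix (Fin d) (Fin d) ℝ) = -1 := rfl
  unfold act
  rw [h]
  simp [Matrix.toEuclideanLin_apply, Matrix.neg_mulVec]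

theorem act_add {d : ℕ} (g : O d) (x y : V d) : act g (x + y) = act g x + act g y := map_add _ _ _

theorem act_smul {d : ℕ} (g : O d) (c : ℝ) (x : V d) : act g (c • x) = c • act g x := map_smul _ _ _

theorem act_inv {d : ℕ} (g : O d) (x : V d) : act g⁻¹ (act g x) = x := by
  rw [← act_mul, inv_mul_cancel, act_one]

theorem act_inv' {d : ℕ} (g : O d) (x : V d) : act g (act g⁻¹ x) = x := by
  rw [← act_mul, mul_inv_cancel, act_one]

theorem inner_act {d : ℕ} (g : O d) (x y : V d) : ⟪act g x, act g y⟫_ℝ = ⟪x, y⟫_ℝ := by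
  unfold act
  have h1 : ⟪Matrix.toEuclideanLin (g : Matrix (Fin d) (Fin d) ℝ) x,
      Matrix.toEuclideanLin (g : Matrix (Fin d) (Fin d) ℝ) y⟫_ℝ =
      ⟪(LinearMap.adjoint (Matrix.toEuclideanLin (g : Matrix (Fin d) (Fin d) ℝ)))
        (Matrix.toEuclideanLin (g : Matrix (Fin d) (Fin d) ℝ) x), y⟫_ℝ := by
    rw [LinearMap.adjoint_inner_left]
  rw [h1, ← Matrix.toEuclideanLin_conjTranspose_eq_adjoint]
  have h2 : (star (g : Matrix (Fin d) (Fin d) ℝ)) * (g : Matrix (Fin d) (Fin d) ℝ) = 1 :=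
    (Matrix.mem_orthogonalGroup_iff' (Fin d) ℝ).mp g.2
  rw [Matrix.star_eq_conjTranspose] at h2
  simp only [Matrix.toEuclideanLin_apply, Matrix.mulVec_mulVec, h2, Matrix.one_mulVec]

theorem norm_act {d : ℕ} (g : O d) (x : V d) : ‖act g x‖ = ‖x‖ := by
  rw [← sq_eq_sq₀ (norm_nonneg _) (norm_nonneg _), ← real_inner_self_eq_norm_sq,
    ← real_inner_self_eq_norm_sq, inner_act]

/-- the action as an isometry -/
noncomputable def actL {d : ℕ} (g : O d) : V d ≃ₗᵢ[ℝ] V d where
  toLinearEquiv := LinearEquiv.ofLinear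
    (Matrix.toEuclideanLin (g : Matrix (Fin d) (Fin d) ℝ))
    (Matrix.toEuclideanLin ((g⁻¹ : O d) : Matrix (Fin d) (Fin d) ℝ))
    (LinearMap.ext fun x => act_inv' g x) (LinearMap.ext fun x => act_inv g x)
  norm_map' := norm_act g

theorem mp_act {d : ℕ} (g : O d) : MeasurePreserving (act g) (volume : Measure (V d)) volume :=
  (actL g).measurePreserving

theorem continuous_act {d : ℕ} : Continuous (fun p : O d × V d => act p.1 p.2) := by
  unfold act
  simp only [Matrix.toEuclideanLin_apply]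
  refine (PiLp.continuous_toLp 2 _).comp ?_
  exact Continuous.matrix_mulVec (continuous_subtype_val.comp continuous_fst)
    ((PiLp.continuous_ofLp 2 _).comp continuous_snd)

/-- transitivity on the sphere -/
theorem exists_act {d : ℕ} (u v : V d) (h : ‖u‖ = ‖v‖) : ∃ g : O d, act g u = v := by
  set ρ : V d ≃ₗᵢ[ℝ] V d := (ℝ ∙ (u - v))ᗮ.reflection with hρ
  set A : Matrix (Fin d) (Fin d) ℝ := Matrix.toEuclideanLin.symm (ρ.toLinearEquiv : V d →ₗ[ℝ] V d)
    with hA
  have hA2 : Matrix.toEuclideanLin A = (ρ.toLinearEquiv : V d →ₗ[ℝ] V d) := by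
    rw [hA, LinearEquiv.apply_symm_apply]
  have hmem : A ∈ Matrix.orthogonalGroup (Fin d) ℝ := by
    rw [Matrix.mem_orthogonalGroup_iff', ← Matrix.conjTranspose_eq_transpose_of_trivial]
    apply Matrix.toEuclideanLin.injective
    apply LinearMap.ext
    intro x
    apply ext_inner_right ℝ
    intro y
    have h1 : Matrix.toEuclideanLin (Matrix.conjTranspose A * A) x =
        Matrix.toEuclideanLin (Matrix.conjTranspose A) (Matrix.toEuclideanLin A x) := by
      simp [Matrix.toEuclideanLin_apply, Matrix.mulVec_mulVec]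
    have h2 : Matrix.toEuclideanLin (1 : Matrix (Fin d) (Fin d) ℝ) x = x := by
      simp [Matrix.toEuclideanLin_apply]
    rw [h1, h2, Matrix.toEuclideanLin_conjTranspose_eq_adjoint, LinearMap.adjoint_inner_left, hA2]
    exact ρ.inner_map_map x y
  refine ⟨⟨A, hmem⟩, ?_⟩
  show Matrix.toEuclideanLin A u = v
  rw [hA2]
  exact Submodule.reflection_sub h

/-! ### Lines -/

/-- the last basis vector -/
noncomputable def ee (m : ℕ) : V (m + 1) := ext 0 1

theorem ext_add {m : ℕ} (y : V m) (t ρ : ℝ) : ext y (t + ρ) = ext y t + ρ • ee m := by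
  apply (WithLp.ofLp_injective 2)
  funext j
  refine Fin.lastCases ?_ (fun i => ?_) j
  · simp [ee, Pool.Agent.N502.TM.ext]
  · simp [ee, Pool.Agent.N502.TM.ext]

theorem norm_ee (m : ℕ) : ‖ee m‖ = 1 := by
  have h : ‖ee m‖ ^ 2 = 1 := by
    rw [EuclideanSpace.norm_sq_eq, Fin.sum_univ_castSucc]
    simp [ee, Pool.Agent.N502.TM.ext]
  have h0 := norm_nonneg (ee m)
  nlinarith

theorem lint_ext {m : ℕ} (F : V (m + 1) → ℝ≥0∞) (hF : Measurable F) :
    ∫⁻ y : V m, ∫⁻ t : ℝ, F (ext y t) = ∫⁻ x, F x := by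
  have h1 : MeasurePreserving (fun p : ℝ × V m => (p.1, WithLp.ofLp p.2))
      ((volume : Measure ℝ).prod (volume : Measure (V m)))
      ((volume : Measure ℝ).prod (volume : Measure (Fin m → ℝ))) :=
    (MeasurePreserving.id volume).prod (PiLp.volume_preserving_ofLp (Fin m))
  have h2 := (volume_preserving_piFinSuccAbove (fun _ : Fin (m + 1) => ℝ) (Fin.last m)).symm
  have h3 := PiLp.volume_preserving_toLp (Fin (m + 1))
  have h4 := (h3.comp h2).comp h1
  have h5 : (WithLp.toLp 2 ∘ (MeasurableEquiv.piFinSuccAbove (fun _ : Fin (m + 1) => ℝ)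
      (Fin.last m)).symm) ∘ (fun p : ℝ × V m => (p.1, WithLp.ofLp p.2)) =
      fun p : ℝ × V m => ext p.2 p.1 := by
    funext p
    have h : (MeasurableEquiv.piFinSuccAbove (fun _ : Fin (m + 1) => ℝ) (Fin.last m)).symm
        (p.1, WithLp.ofLp p.2) = @Fin.insertNth m (fun _ => ℝ) (Fin.last m) p.1
          (WithLp.ofLp p.2) := rfl
    rw [Function.comp_apply, Function.comp_apply, h, Fin.insertNth_last']
    rfl
  rw [h5] at h4
  have h6 : MeasurePreserving (fun p : ℝ × V m => ext p.2 p.1)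
      ((volume : Measure ℝ).prod (volume : Measure (V m))) volume := h4
  have h7 := h6.lintegral_comp hF
  rw [← h7, lintegral_prod_symm (fun p : ℝ × V m => F (ext p.2 p.1))
    (hF.comp h6.measurable).aemeasurable]

/-- translation in the line -/
theorem sq_line (u : ℝ → ℝ≥0∞) (hu : Measurable u) :
    (∫⁻ t, u t) ^ 2 = ∫⁻ t, u t * ∫⁻ ρ, u (t + ρ) := by
  have h : ∀ t : ℝ, ∫⁻ ρ, u (t + ρ) = ∫⁻ ρ, u ρ := fun t => lintegral_add_left_eq_self u t
  simp only [h]
  rw [lintegral_mul_const _ hu, sq]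

theorem meas_line {d : ℕ} (f : V d → ℝ≥0∞) (hf : Measurable f) (w : V d) :
    Measurable (fun x => f x * ∫⁻ ρ : ℝ, f (x + ρ • w)) := by
  apply hf.mul
  apply Measurable.lintegral_prod_right' (f := fun p : V d × ℝ => f (p.1 + p.2 • w))
  exact hf.comp (measurable_fst.add (measurable_snd.smul_const w))

/-- the integral over the lines in one direction -/
theorem line_int {m : ℕ} (f : V (m + 1) → ℝ≥0∞) (hf : Measurable f) (g : O (m + 1)) :
    ∫⁻ y : V m, (∫⁻ t : ℝ, f (act g (ext y t))) ^ 2 =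
      ∫⁻ x, f x * ∫⁻ ρ : ℝ, f (x + ρ • act g (ee m)) := by
  have hG := meas_line f hf (act g (ee m))
  have hact : Measurable (act g : V (m + 1) → V (m + 1)) := (mp_act g).measurable
  have hext : ∀ y : V m, Measurable (fun t : ℝ => ext y t) := by
    intro y
    have : (fun t : ℝ => ext y t) = fun t : ℝ => ext y 0 + t • ee m := by
      funext t
      rw [← ext_add, zero_add]
    rw [this]
    exact measurable_const.add (measurable_id.smul_const _)
  have h1 : ∀ y : V m, (∫⁻ t : ℝ, f (act g (ext y t))) ^ 2 =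
      ∫⁻ t : ℝ, (fun x => f (act g x) * ∫⁻ ρ : ℝ, f (act g x + ρ • act g (ee m))) (ext y t) := by
    intro y
    rw [sq_line (fun t => f (act g (ext y t))) (hf.comp (hact.comp (hext y)))]
    simp only [ext_add, act_add, act_smul]
  rw [lintegral_congr h1, lint_ext (fun x => f (act g x) * ∫⁻ ρ : ℝ, f (act g x +
    ρ • act g (ee m))) (hG.comp hact)]
  exact (mp_act g).lintegral_comp hG

theorem continuous_actee {m : ℕ} : Continuous (fun g : O (m + 1) => act g (ee m)) :=
  continuous_act.comp (continuous_id.prodMk continuous_const)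

/-- `QQ` as an integral over points and directions -/
theorem QQ_eq {m : ℕ} (ν : Measure (O (m + 1))) [IsProbabilityMeasure ν]
    (f : V (m + 1) → ℝ≥0∞) (hf : Measurable f) :
    QQ m ν f = ∫⁻ x, f x * ∫⁻ g, ∫⁻ ρ : ℝ, f (x + ρ • act g (ee m)) ∂volume ∂ν := by
  unfold QQ
  simp only [line_int f hf]
  have hm : Measurable (fun p : (O (m + 1) × V (m + 1)) × ℝ =>
      f (p.1.2 + p.2 • act p.1.1 (ee m))) := by
    apply hf.comp
    apply Continuous.measurable
    have h1 : Continuous (fun p : (O (m + 1) × V (m + 1)) × ℝ => act p.1.1 (ee m)) :=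
      continuous_actee.comp (continuous_fst.comp continuous_fst)
    exact (continuous_snd.comp continuous_fst).add (continuous_snd.smul h1)
  have hm2 : Measurable (fun p : O (m + 1) × V (m + 1) =>
      ∫⁻ ρ : ℝ, f (p.2 + ρ • act p.1 (ee m))) := hm.lintegral_prod_right'
  rw [lintegral_lintegral_swap
    (f := fun g x => f x * ∫⁻ ρ : ℝ, f (x + ρ • act g (ee m)))
    ((hf.comp measurable_snd).mul hm2).aemeasurable]
  apply lintegral_congr
  intro x
  rw [lintegral_const_mul]
  exact hm2.comp (measurable_id.prodMk measurable_const)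

/-! ### Directions -/

/-- average over the sphere of radius `|r|` -/
noncomputable def AA {m : ℕ} (ν : Measure (O (m + 1))) (F : V (m + 1) → ℝ≥0∞) (r : ℝ) : ℝ≥0∞ :=
  ∫⁻ g, F (r • act g (ee m)) ∂ν

theorem meas_rg {m : ℕ} (F : V (m + 1) → ℝ≥0∞) (hF : Measurable F) :
    Measurable (fun p : ℝ × O (m + 1) => F (p.1 • act p.2 (ee m))) := by
  apply hF.comp
  apply Continuous.measurable
  exact continuous_fst.smul (continuous_actee.comp continuous_snd)

theorem meas_AA {m : ℕ} (ν : Measure (O (m + 1))) [IsProbabilityMeasure ν]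
    (F : V (m + 1) → ℝ≥0∞) (hF : Measurable F) : Measurable (AA ν F) :=
  (meas_rg F hF).lintegral_prod_right'

theorem AA_neg {m : ℕ} (ν : Measure (O (m + 1))) [ν.IsMulRightInvariant]
    (F : V (m + 1) → ℝ≥0∞) (r : ℝ) : AA ν F (-r) = AA ν F r := by
  unfold AA
  rw [← lintegral_mul_right_eq_self (fun g => F (r • act g (ee m))) (-1 : O (m + 1))]
  apply lintegral_congr
  intro g
  rw [act_mul, act_neg_one, ← neg_one_smul ℝ (ee m), act_smul, smul_smul]
  congr 2
  ring

theorem AA_act {m : ℕ} (ν : Measure (O (m + 1))) [ν.IsMulRightInvariant]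
    (F : V (m + 1) → ℝ≥0∞) (z : V (m + 1)) : ∫⁻ g, F (act g z) ∂ν = AA ν F ‖z‖ := by
  obtain ⟨h, hh⟩ := exists_act (‖z‖ • ee m) z (by
    rw [norm_smul, norm_ee, mul_one, Real.norm_eq_abs, abs_of_nonneg (norm_nonneg z)])
  unfold AA
  rw [← lintegral_mul_right_eq_self (fun g => F (‖z‖ • act g (ee m))) h]
  apply lintegral_congr
  intro g
  rw [act_mul, ← act_smul, ← act_smul, hh]

theorem half_line (A : ℝ → ℝ≥0∞) (hA : Measurable A) (hA2 : ∀ r, A (-r) = A r) :
    ∫⁻ r, A r = 2 * ∫⁻ r in Ioi (0 : ℝ), A r := by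
  have h1 := (Measure.measurePreserving_neg (volume : Measure ℝ)).setLIntegral_comp_preimage
    (measurableSet_Ici (a := (0 : ℝ))) hA
  have h2 : (Neg.neg ⁻¹' Ici (0 : ℝ)) = Iic (0 : ℝ) := by
    ext x
    simp
  rw [h2] at h1
  simp only [hA2] at h1
  rw [← lintegral_add_compl A (measurableSet_Ioi (a := (0 : ℝ))), compl_Ioi, h1,
    setLIntegral_congr Ioi_ae_eq_Ici.symm, two_mul]

/-- the kernel `|z|^(-m)` -/
noncomputable def kk (m : ℕ) (z : V (m + 1)) : ℝ≥0∞ :=
  ENNReal.ofReal (‖z‖ ^ (-(((m + 1 : ℕ) : ℝ) - 1)))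

theorem meas_kr (m : ℕ) : Measurable (fun r : ℝ =>
    ENNReal.ofReal (r ^ (-(((m + 1 : ℕ) : ℝ) - 1)))) :=
  (measurable_id.pow_const _).ennreal_ofReal

theorem meas_kk (m : ℕ) : Measurable (kk m) := (meas_kr m).comp measurable_norm

theorem kk_act {m : ℕ} (g : O (m + 1)) (z : V (m + 1)) : kk m (act g z) = kk m z := by
  unfold kk
  rw [norm_act]

theorem kr_mul {m : ℕ} {r : ℝ} (hr : 0 < r) (a : ℝ≥0∞) : ENNReal.ofReal (r ^ (m + 1 - 1)) *
    (ENNReal.ofReal (r ^ (-(((m + 1 : ℕ) : ℝ) - 1))) * a) = a := by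
  rw [← mul_assoc, ← ENNReal.ofReal_mul (by positivity)]
  have h : r ^ (m + 1 - 1) * r ^ (-(((m + 1 : ℕ) : ℝ) - 1)) = 1 := by
    rw [Nat.add_sub_cancel, Nat.cast_add, Nat.cast_one, add_sub_cancel_right, Real.rpow_neg hr.le,
      Real.rpow_natCast]
    exact mul_inv_cancel₀ (by positivity)
  rw [h, ENNReal.ofReal_one, one_mul]

/-- the constant -/
noncomputable def cc (m : ℕ) : ℝ≥0∞ := ((m + 1 : ℕ) : ℝ≥0∞) * volume (ball (0 : V (m + 1)) 1)

theorem cc_ne_zero (m : ℕ) : cc m ≠ 0 := by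
  unfold cc
  refine mul_ne_zero (by exact_mod_cast (Nat.succ_ne_zero m)) ?_
  exact (measure_ball_pos volume (0 : V (m + 1)) one_pos).ne'

theorem cc_ne_top (m : ℕ) : cc m ≠ ∞ := by
  unfold cc
  exact ENNReal.mul_ne_top (ENNReal.natCast_ne_top _) measure_ball_lt_top.ne

theorem radial_eq {m : ℕ} (ν : Measure (O (m + 1))) [IsProbabilityMeasure ν]
    [ν.IsMulRightInvariant] (F : V (m + 1) → ℝ≥0∞) (hF : Measurable F) :
    ∫⁻ z, F z * kk m z = cc m * ∫⁻ r in Ioi (0 : ℝ), AA ν F r := by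
  have h1 : ∀ g : O (m + 1), ∫⁻ z, F z * kk m z = ∫⁻ z, F (act g z) * kk m z := by
    intro g
    have h := (mp_act g).lintegral_comp (hF.mul (meas_kk m))
    simp only [Pi.mul_apply, kk_act] at h
    exact h.symm
  have h2 : ∫⁻ z, F z * kk m z = ∫⁻ g, ∫⁻ z, F (act g z) * kk m z ∂volume ∂ν := by
    rw [← lintegral_congr (μ := ν) h1, lintegral_const, measure_univ, mul_one]
  have hm : Measurable (fun p : O (m + 1) × V (m + 1) => F (act p.1 p.2)) :=
    hF.comp continuous_act.measurable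
  rw [h2, lintegral_lintegral_swap (f := fun g z => F (act g z) * kk m z)
    (hm.mul ((meas_kk m).comp measurable_snd)).aemeasurable]
  have h3 : ∀ z, ∫⁻ g, F (act g z) * kk m z ∂ν =
      (fun r : ℝ => ENNReal.ofReal (r ^ (-(((m + 1 : ℕ) : ℝ) - 1))) * AA ν F r) ‖z‖ := by
    intro z
    have hm2 : Measurable (fun g : O (m + 1) => F (act g z)) :=
      hm.comp (measurable_id.prodMk measurable_const)
    rw [lintegral_mul_const _ hm2, AA_act, mul_comm]
    rfl
  rw [lintegral_congr h3, lint_radial (Nat.succ_pos m)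
    (fun r : ℝ => ENNReal.ofReal (r ^ (-(((m + 1 : ℕ) : ℝ) - 1))) * AA ν F r)
    ((meas_kr m).mul (meas_AA ν F hF))]
  unfold cc
  congr 1
  apply setLIntegral_congr_fun measurableSet_Ioi
  intro r hr
  exact kr_mul hr _

/-- integration along random lines through the origin -/
theorem lam_eq {m : ℕ} (ν : Measure (O (m + 1))) [IsProbabilityMeasure ν]
    [ν.IsMulRightInvariant] (F : V (m + 1) → ℝ≥0∞) (hF : Measurable F) :
    ∫⁻ g, ∫⁻ ρ : ℝ, F (ρ • act g (ee m)) ∂volume ∂ν = (2 * (cc m)⁻¹) * ∫⁻ z, F z * kk m z := by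
  have h1 : ∫⁻ g, ∫⁻ ρ : ℝ, F (ρ • act g (ee m)) ∂volume ∂ν = ∫⁻ r, AA ν F r := by
    rw [lintegral_lintegral_swap (f := fun g ρ => F (ρ • act g (ee m)))
      ((meas_rg F hF).comp measurable_swap).aemeasurable]
    rfl
  rw [h1, half_line _ (meas_AA ν F hF) (AA_neg ν F), radial_eq ν F hF, ← mul_assoc, mul_assoc 2,
    ENNReal.inv_mul_cancel (cc_ne_zero m) (cc_ne_top m), mul_one]

/-! ### The energy -/

theorem WW_eq {m : ℕ} (ψ0 : ℝ≥0∞) (hψ : ψ0 ≠ ∞)
    (hk : ∀ z : V (m + 1), z ≠ 0 → kern (m + 1) 0 z = kk m z * ψ0)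
    (f : V (m + 1) → ℝ≥0∞) (hf : Measurable f) :
    WW (m + 1) 0 f = ψ0 * ∫⁻ x, f x * ∫⁻ z, f z * kk m (x - z) := by
  unfold WW
  rw [← lintegral_const_mul' _ _ hψ]
  apply lintegral_congr
  intro x
  have h1 : ∀ᵐ z : V (m + 1), f x * f z * kern (m + 1) 0 (x - z) =
      ψ0 * (f x * (f z * kk m (x - z))) := by
    have h2 : ∀ᵐ z : V (m + 1), z ≠ x := by
      rw [ae_iff]
      simp
    filter_upwards [h2] with z hz
    rw [hk (x - z) (sub_ne_zero.mpr (Ne.symm hz))]
    ring
  rw [lintegral_congr_ae h1, lintegral_const_mul' _ _ hψ, lintegral_const_mul]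
  exact hf.mul ((meas_kk m).comp (measurable_const.sub measurable_id))

/-- **QWW** -/
theorem main : Pool.Agent.N502.TM.S_QWW := by
  intro hK hI m hm ν hν hl
  haveI := hI (m + 1) ν hν hl
  obtain ⟨ψ, hψ, -, -, hk⟩ := hK (m + 1) (by omega)
  obtain ⟨h0, h1⟩ := hψ 0 le_rfl
  refine ⟨(2 * (cc m)⁻¹) * (ψ 0)⁻¹, ?_, ?_, ?_⟩
  · refine mul_ne_zero (mul_ne_zero (by norm_num) ?_) ?_
    · exact ENNReal.inv_ne_zero.mpr (cc_ne_top m)
    · exact ENNReal.inv_ne_zero.mpr h1
  · refine ENNReal.mul_ne_top (ENNReal.mul_ne_top (by norm_num) ?_) ?_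
    · exact ENNReal.inv_ne_top.mpr (cc_ne_zero m)
    · exact ENNReal.inv_ne_top.mpr h0
  · intro f hf
    rw [WW_eq (ψ 0) h1 (fun z hz => by
      have := hk 0 z le_rfl hz
      rw [zero_mul] at this
      exact this) f hf, QQ_eq ν f hf]
    have h2 : ∀ x, f x * ∫⁻ g, ∫⁻ ρ : ℝ, f (x + ρ • act g (ee m)) ∂volume ∂ν =
        (2 * (cc m)⁻¹) * (f x * ∫⁻ z, f z * kk m (x - z)) := by
      intro x
      rw [lam_eq ν (fun z => f (x + z)) (hf.comp (measurable_const.add measurable_id))]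
      have h3 : ∫⁻ z, f (x + z) * kk m z = ∫⁻ z, f z * kk m (x - z) := by
        rw [← lintegral_add_left_eq_self (fun z => f z * kk m (x - z)) x]
        apply lintegral_congr
        intro z
        have : kk m (x - (x + z)) = kk m z := by
          unfold kk
          rw [sub_add_cancel_left, norm_neg]
        rw [this]
      rw [h3]
      ring
    rw [lintegral_congr h2, lintegral_const_mul' _ _
      (ENNReal.mul_ne_top (by norm_num) (ENNReal.inv_ne_top.mpr (cc_ne_zero m)))]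
    rw [mul_assoc (2 * (cc m)⁻¹), ← mul_assoc (ψ 0)⁻¹, ENNReal.inv_mul_cancel h0 h1, one_mul]

end Pool.Agent.N75.TM_QWW
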